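import Pool.Agent.Helper99.SI.StM

set_option autoImplicit false

namespace Pool.Agent.Helper28.SI

open Pool.Agent.Helper99.SI LaurentPolynomial

lemma coef (c : ℂ) (j k : ℤ) : (C c * T j : AA).coeff k = if j = k then c else 0 := by
  rw [← single_eq_C_mul_T, AddMonoidAlgebra.coeff_single, Finsupp.single_apply]

lemma coeff_sum' {ι : Type} (s : Finset ι) (f : ι → AA) (k : ℤ) :
    (∑ i ∈ s, f i).coeff k = ∑ i ∈ s, (f i).coeff k := by
  classical
  induction s using Finset.induction_on with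
  | empty => simp
  | insert a s ha ih => rw [Finset.sum_insert ha, Finset.sum_insert ha, ← ih]; simp

lemma h00 (k : ℤ) : (fun a : AA => a.coeff k) 0 = 0 := by simp

lemma il {α β γ : Type} : Function.Injective (fun ν : α => (Sum.inl (Sum.inl ν) : (α ⊕ β) ⊕ γ)) :=
  Sum.inl_injective.comp Sum.inl_injective

lemma ir {α β γ : Type} : Function.Injective (fun ν : β => (Sum.inl (Sum.inr ν) : (α ⊕ β) ⊕ γ)) :=
  Sum.inl_injective.comp Sum.inr_injective

/-- coordinates of T j times bt of a combination of long words -/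
noncomputable def QP {n : ℕ} (M r : ℕ) (j : ℤ) (f : W n →₀ ℂ) : Id' n M r →₀ AA :=
  ((f.subtypeDomain (fun ν : W n => M ≤ ν.length)).mapDomain
    (fun ν => (Sum.inl (Sum.inl ν) : Id' n M r))).mapRange (fun c => (C c * T j : AA)) (by simp)

/-- coordinates of T j times C of the adjoint of a combination of long words -/
noncomputable def QN {n : ℕ} (M r : ℕ) (j : ℤ) (f : W n →₀ ℂ) : Id' n M r →₀ AA :=
  ((f.subtypeDomain (fun ν : W n => M ≤ ν.length)).mapDomain
    (fun ν => (Sum.inl (Sum.inr ν) : Id' n M r))).mapRange (fun c => (C (star c) * T j : AA))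
    (by simp)

lemma QP_add {n : ℕ} (M r : ℕ) (j : ℤ) (f g : W n →₀ ℂ) :
    QP M r j (f + g) = QP M r j f + QP M r j g := by
  unfold QP
  rw [Finsupp.subtypeDomain_add, Finsupp.mapDomain_add, Finsupp.mapRange_add]
  intro x y
  rw [map_add, add_mul]

lemma QN_add {n : ℕ} (M r : ℕ) (j : ℤ) (f g : W n →₀ ℂ) :
    QN M r j (f + g) = QN M r j f + QN M r j g := by
  unfold QN
  rw [Finsupp.subtypeDomain_add, Finsupp.mapDomain_add, Finsupp.mapRange_add]
  intro x y
  rw [star_add, map_add, add_mul]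

lemma sub_single {n : ℕ} (M : ℕ) (μ : W n) (h : M ≤ μ.length) (c : ℂ) :
    (Finsupp.single μ c).subtypeDomain (fun ν : W n => M ≤ ν.length) =
      Finsupp.single ⟨μ, h⟩ c := by
  classical
  ext a
  rw [Finsupp.subtypeDomain_apply, Finsupp.single_apply, Finsupp.single_apply]
  simp only [Subtype.ext_iff]

lemma sub_single' {n : ℕ} (M : ℕ) (μ : W n) (h : ¬ M ≤ μ.length) (c : ℂ) :
    (Finsupp.single μ c).subtypeDomain (fun ν : W n => M ≤ ν.length) = 0 := by
  classical
  ext a
  rw [Finsupp.subtypeDomain_apply, Finsupp.single_apply, if_neg]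
  · rfl
  · intro h1
    exact h (h1 ▸ a.2)

lemma QP_single {n : ℕ} (M r : ℕ) (j : ℤ) (μ : W n) (h : M ≤ μ.length) (c : ℂ) :
    QP M r j (Finsupp.single μ c) = Finsupp.single (Sum.inl (Sum.inl ⟨μ, h⟩)) (C c * T j) := by
  unfold QP
  rw [sub_single M μ h, Finsupp.mapDomain_single, Finsupp.mapRange_single]

lemma QP_single' {n : ℕ} (M r : ℕ) (j : ℤ) (μ : W n) (h : ¬ M ≤ μ.length) (c : ℂ) :
    QP M r j (Finsupp.single μ c) = 0 := by
  unfold QP
  rw [sub_single' M μ h, Finsupp.mapDomain_zero, Finsupp.mapRange_zero]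

lemma QN_single {n : ℕ} (M r : ℕ) (j : ℤ) (μ : W n) (h : M ≤ μ.length) (c : ℂ) :
    QN M r j (Finsupp.single μ c) =
      Finsupp.single (Sum.inl (Sum.inr ⟨μ, h⟩)) (C (star c) * T j) := by
  unfold QN
  rw [sub_single M μ h, Finsupp.mapDomain_single, Finsupp.mapRange_single]

lemma QN_single' {n : ℕ} (M r : ℕ) (j : ℤ) (μ : W n) (h : ¬ M ≤ μ.length) (c : ℂ) :
    QN M r j (Finsupp.single μ c) = 0 := by
  unfold QN
  rw [sub_single' M μ h, Finsupp.mapDomain_zero, Finsupp.mapRange_zero]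

lemma QP_ap {n : ℕ} (M r : ℕ) (j : ℤ) (f : W n →₀ ℂ) (μ : {ν : W n // M ≤ ν.length}) (k : ℤ) :
    (QP M r j f (Sum.inl (Sum.inl μ))).coeff k = if j = k then f μ.1 else 0 := by
  unfold QP
  rw [Finsupp.mapRange_apply, coef, Finsupp.mapDomain_apply, Finsupp.subtypeDomain_apply]
  exact Sum.inl_injective.comp Sum.inl_injective

lemma QP_ap1 {n : ℕ} (M r : ℕ) (j : ℤ) (f : W n →₀ ℂ) (μ : {ν : W n // M ≤ ν.length}) :
    QP M r j f (Sum.inl (Sum.inr μ)) = 0 := by
  unfold QP
  rw [Finsupp.mapRange_apply, Finsupp.mapDomain_of_notMem_range]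
  · simp
  · rintro ⟨x, hx⟩
    exact absurd hx (by simp)

lemma QP_ap2 {n : ℕ} (M r : ℕ) (j : ℤ) (f : W n →₀ ℂ) (a : Fin r) :
    QP M r j f (Sum.inr a) = 0 := by
  unfold QP
  rw [Finsupp.mapRange_apply, Finsupp.mapDomain_of_notMem_range]
  · simp
  · rintro ⟨x, hx⟩
    exact absurd hx (by simp)

lemma QN_ap {n : ℕ} (M r : ℕ) (j : ℤ) (f : W n →₀ ℂ) (μ : {ν : W n // M ≤ ν.length}) (k : ℤ) :
    (QN M r j f (Sum.inl (Sum.inr μ))).coeff k = if j = k then star (f μ.1) else 0 := by
  unfold QN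
  rw [Finsupp.mapRange_apply, coef, Finsupp.mapDomain_apply, Finsupp.subtypeDomain_apply]
  exact Sum.inl_injective.comp Sum.inr_injective

lemma QN_ap1 {n : ℕ} (M r : ℕ) (j : ℤ) (f : W n →₀ ℂ) (μ : {ν : W n // M ≤ ν.length}) :
    QN M r j f (Sum.inl (Sum.inl μ)) = 0 := by
  unfold QN
  rw [Finsupp.mapRange_apply, Finsupp.mapDomain_of_notMem_range]
  · simp
  · rintro ⟨x, hx⟩
    exact absurd hx (by simp)

lemma QN_ap2 {n : ℕ} (M r : ℕ) (j : ℤ) (f : W n →₀ ℂ) (a : Fin r) :
    QN M r j f (Sum.inr a) = 0 := by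
  unfold QN
  rw [Finsupp.mapRange_apply, Finsupp.mapDomain_of_notMem_range]
  · simp
  · rintro ⟨x, hx⟩
    exact absurd hx (by simp)

section

variable {n : ℕ} {L : Type} [Ring L] [Algebra ℂ L] [StarRing L] [StarModule ℂ L] [Nontrivial L]

omit [StarRing L] [StarModule ℂ L] [Nontrivial L] in
lemma C_smul (c : ℂ) (y : L) : (C (c • y) : LL L) = (C c : AA) • (C y : LL L) := by
  have h : (C c : AA) = C c * T 0 := by rw [T_zero, mul_one]
  rw [smul_def', h, cen_CT, T_zero, mul_one, ← map_mul, Algebra.smul_def]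

omit [StarModule ℂ L] [Nontrivial L] in
lemma lcP (D : Sys n L) (M : ℕ) {r : ℕ} (b : Fin r → LL L)
    (ha : ∀ y z : L, D.b.bt (y + z) = D.b.bt y + D.b.bt z)
    (hs : ∀ (c : ℂ) (y : L), D.b.bt (c • y) = (C c : AA) • D.b.bt y) (j : ℤ) (f : W n →₀ ℂ)
    (hf : ∀ μ, f μ ≠ 0 → M ≤ μ.length) :
    Finsupp.linearCombination AA (D.fam M b) (QP M r j f) = (T j : AA) • D.b.bt (D.emb f) := by
  classical
  have h0 : D.b.bt 0 = 0 := by
    have := ha 0 0
    rw [add_zero] at this
    exact left_eq_add.mp this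
  have key : Finsupp.linearCombination AA (D.fam M b) (QP M r j f) =
      (T j : AA) • D.b.bt (D.emb (f.filter (fun ν => M ≤ ν.length))) := by
    clear hf
    induction f using Finsupp.induction_linear with
    | zero => rw [Finsupp.filter_zero, map_zero, h0, smul_zero]; simp [QP]
    | add f g ihf ihg =>
      rw [QP_add, map_add, ihf, ihg, Finsupp.filter_add, map_add, ha, smul_add]
    | single μ c =>
      by_cases h : M ≤ μ.length
      · rw [QP_single M r j μ h, Finsupp.linearCombination_single, Finsupp.filter_single_of_pos (fun ν : W n => M ≤ ν.length) h]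
        show (C c * T j : AA) • D.b.bt (D.w μ) = _
        rw [Sys.emb, Finsupp.linearCombination_single, hs, smul_smul, mul_comm]
      · rw [QP_single' M r j μ h, Finsupp.filter_single_of_neg (fun ν : W n => M ≤ ν.length) h, map_zero, map_zero, h0,
          smul_zero]
  rw [key, (Finsupp.filter_eq_self_iff _ f).mpr hf]

omit [Nontrivial L] in
lemma lcN (D : Sys n L) (M : ℕ) {r : ℕ} (b : Fin r → LL L) (j : ℤ) (f : W n →₀ ℂ)
    (hf : ∀ μ, f μ ≠ 0 → M ≤ μ.length) :
    Finsupp.linearCombination AA (D.fam M b) (QN M r j f) =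
      (T j : AA) • (C (star (D.emb f)) : LL L) := by
  classical
  have key : Finsupp.linearCombination AA (D.fam M b) (QN M r j f) =
      (T j : AA) • (C (star (D.emb (f.filter (fun ν => M ≤ ν.length)))) : LL L) := by
    clear hf
    induction f using Finsupp.induction_linear with
    | zero => rw [Finsupp.filter_zero, map_zero, star_zero, map_zero, smul_zero]; simp [QN]
    | add f g ihf ihg =>
      rw [QN_add, map_add, ihf, ihg, Finsupp.filter_add, map_add, star_add, map_add, smul_add]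
    | single μ c =>
      by_cases h : M ≤ μ.length
      · rw [QN_single M r j μ h, Finsupp.linearCombination_single, Finsupp.filter_single_of_pos (fun ν : W n => M ≤ ν.length) h]
        show (C (star c) * T j : AA) • (C (star (D.w μ)) : LL L) = _
        rw [Sys.emb, Finsupp.linearCombination_single, star_smul, C_smul, smul_smul, mul_comm]
      · rw [QN_single' M r j μ h, Finsupp.filter_single_of_neg (fun ν : W n => M ≤ ν.length) h, map_zero, map_zero, star_zero,
          map_zero, smul_zero]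
  rw [key, (Finsupp.filter_eq_self_iff _ f).mpr hf]

lemma emI_inj {n M r : ℕ} : Function.Injective (emI : Id' n M r → Idx n r) :=
  Sum.map_injective.mpr ⟨Sum.map_injective.mpr ⟨Subtype.val_injective, Subtype.val_injective⟩,
    Function.injective_id⟩

omit [StarModule ℂ L] [Nontrivial L] in
lemma co_lc {D : Sys n L} {X0 : Set L} {M r : ℕ} (B : YBas D X0 M r) (j : ℤ) (q : Id' n M r →₀ AA)
    (h0 : (fun a : AA => a.coeff j) 0 = 0) :
    B.co j (Finsupp.linearCombination AA (D.fam M B.b) q) =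
      (q.mapRange (fun a : AA => a.coeff j) h0).mapDomain emI := by
  have h1 : Finsupp.linearCombination AA (D.fam M B.b) q =
      ((Finsupp.linearCombination AA B.B q : D.YY X0) : LL L) := by
    rw [Finsupp.linearCombination_apply, Finsupp.linearCombination_apply, Finsupp.sum, Finsupp.sum,
      Submodule.coe_sum]
    refine Finset.sum_congr rfl fun i _ => ?_
    rw [Submodule.coe_smul, B.hB]
  unfold YBas.co
  have h2 : Finsupp.linearCombination AA (D.fam M B.b) q ∈ D.YY X0 := by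
    rw [h1]
    exact Submodule.coe_mem _
  rw [dif_pos h2]
  congr 2
  have h3 : (⟨_, h2⟩ : D.YY X0) = Finsupp.linearCombination AA B.B q := Subtype.ext h1
  rw [h3, Module.Basis.repr_linearCombination]

/-- the columns of the model -/
noncomputable def FF {D : Sys n L} {X0 : Set L} {M r : ℕ} (B : YBas D X0 M r) (M2 : ℕ) (Z : Finset ℤ)
    (j : ℤ) (i : Idx n r) : Idx n r →₀ ℂ := (B.mk' M2 Z).F j i

omit [StarModule ℂ L] [Nontrivial L] in
lemma F_emI {D : Sys n L} {X0 : Set L} {M r : ℕ} (B : YBas D X0 M r) (M2 : ℕ) (Z : Finset ℤ) (j : ℤ)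
    (i : Id' n M r) : FF B M2 Z j (emI i) = B.co j (D.PhiL (D.fam M B.b i)) := by
  have h : ∃ i' : Id' n M r, emI i' = emI i := ⟨i, rfl⟩
  refine (dif_pos h).trans ?_
  rw [emI_inj h.choose_spec]

omit [StarModule ℂ L] [Nontrivial L] in
lemma F_no {D : Sys n L} {X0 : Set L} {M r : ℕ} (B : YBas D X0 M r) (M2 : ℕ) (Z : Finset ℤ) (j : ℤ)
    (i : Idx n r) (hi : ¬ ∃ i' : Id' n M r, emI i' = i) : FF B M2 Z j i = 0 :=
  dif_neg hi

omit [StarModule ℂ L] [Nontrivial L] in
lemma co_no {D : Sys n L} {X0 : Set L} {M r : ℕ} (B : YBas D X0 M r) (j : ℤ) (y : LL L)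
    (i : Idx n r) (hi : ¬ ∃ i' : Id' n M r, emI i' = i) : B.co j y i = 0 := by
  unfold YBas.co
  split_ifs with h
  · rw [Finsupp.mapDomain_of_notMem_range]
    rintro ⟨x, hx⟩
    exact hi ⟨x, hx⟩
  · rfl

omit [StarModule ℂ L] [Nontrivial L] in
lemma F_no2 {D : Sys n L} {X0 : Set L} {M r : ℕ} (B : YBas D X0 M r) (M2 : ℕ) (Z : Finset ℤ) (j : ℤ)
    (i i1 : Idx n r) (hi : ¬ ∃ i' : Id' n M r, emI i' = i1) : FF B M2 Z j i i1 = 0 := by
  by_cases h : ∃ i' : Id' n M r, emI i' = i
  · obtain ⟨i', rfl⟩ := h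
    rw [F_emI]
    exact co_no B j _ i1 hi
  · rw [F_no B M2 Z j i h]
    rfl

lemma no1 {n M r : ℕ} (ν : W n) (h : ν.length < M) :
    ¬ ∃ i' : Id' n M r, emI i' = (Sum.inl (Sum.inl ν) : Idx n r) := by
  rintro ⟨i', hi'⟩
  rcases i' with (μ | μ) | a
  · have h1 : μ.1 = ν := Sum.inl_injective (Sum.inl_injective hi')
    have := μ.2
    rw [h1] at this
    omega
  · exact absurd (Sum.inl_injective hi') (by simp)
  · exact absurd hi' (by simp [emI])

lemma no2 {n M r : ℕ} (ν : W n) (h : ν.length < M) :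
    ¬ ∃ i' : Id' n M r, emI i' = (Sum.inl (Sum.inr ν) : Idx n r) := by
  rintro ⟨i', hi'⟩
  rcases i' with (μ | μ) | a
  · exact absurd (Sum.inl_injective hi') (by simp)
  · have h1 : μ.1 = ν := Sum.inr_injective (Sum.inl_injective hi')
    have := μ.2
    rw [h1] at this
    omega
  · exact absurd hi' (by simp [emI])


lemma mapRange_QP {n M r : ℕ} (J : Finset ℤ) (f : ℤ → (W n →₀ ℂ)) (hJ : ∀ j ∉ J, f j = 0) (k : ℤ)
    (h0 : (fun a : AA => a.coeff k) 0 = 0) :
    (∑ j ∈ J, QP M r j (f j)).mapRange (fun a : AA => a.coeff k) h0 =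
      ((f k).subtypeDomain (fun ν : W n => M ≤ ν.length)).mapDomain
        (fun ν => (Sum.inl (Sum.inl ν) : Id' n M r)) := by
  classical
  ext i'
  rw [Finsupp.mapRange_apply]
  rw [Finsupp.finsetSum_apply, coeff_sum']
  rcases i' with (μ | μ) | a
  · rw [Finsupp.mapDomain_apply il,
      Finsupp.subtypeDomain_apply]
    simp only [QP_ap]
    rw [Finset.sum_ite_eq' J k]
    split_ifs with h
    · rfl
    · rw [hJ k h]
      rfl
  · rw [Finsupp.mapDomain_of_notMem_range]
    · simp [QP_ap1]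
    · rintro ⟨x, hx⟩
      exact absurd hx (by simp)
  · rw [Finsupp.mapDomain_of_notMem_range]
    · simp [QP_ap2]
    · rintro ⟨x, hx⟩
      exact absurd hx (by simp)

lemma mapRange_QN {n M r : ℕ} (J : Finset ℤ) (f : ℤ → (W n →₀ ℂ)) (hJ : ∀ j ∉ J, f j = 0) (k : ℤ)
    (h0 : (fun a : AA => a.coeff k) 0 = 0) :
    (∑ j ∈ J, QN M r j (f j)).mapRange (fun a : AA => a.coeff k) h0 =
      (((f k).mapRange star (star_zero ℂ)).subtypeDomain (fun ν : W n => M ≤ ν.length)).mapDomain
        (fun ν => (Sum.inl (Sum.inr ν) : Id' n M r)) := by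
  classical
  ext i'
  rw [Finsupp.mapRange_apply]
  rw [Finsupp.finsetSum_apply, coeff_sum']
  rcases i' with (μ | μ) | a
  · rw [Finsupp.mapDomain_of_notMem_range]
    · simp [QN_ap1]
    · rintro ⟨x, hx⟩
      exact absurd hx (by simp)
  · rw [Finsupp.mapDomain_apply ir,
      Finsupp.subtypeDomain_apply, Finsupp.mapRange_apply]
    simp only [QN_ap]
    rw [Finset.sum_ite_eq' J k]
    split_ifs with h
    · rfl
    · rw [hJ k h]
      simp
  · rw [Finsupp.mapDomain_of_notMem_range]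
    · simp [QN_ap2]
    · rintro ⟨x, hx⟩
      exact absurd hx (by simp)

lemma of_long {n : ℕ} (M : ℕ) (f : W n →₀ ℂ) (hf : ∀ μ, f μ ≠ 0 → M ≤ μ.length) :
    (f.subtypeDomain (fun ν : W n => M ≤ ν.length)).mapDomain Subtype.val = f := by
  ext μ
  by_cases h : M ≤ μ.length
  · have h1 : μ = ((⟨μ, h⟩ : {ν : W n // M ≤ ν.length}) : W n) := rfl
    rw [h1, Finsupp.mapDomain_apply Subtype.val_injective, Finsupp.subtypeDomain_apply]
  · rw [Finsupp.mapDomain_of_notMem_range]
    · by_contra h2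
      exact h (hf μ (Ne.symm h2))
    · rintro ⟨x, hx⟩
      exact h (hx ▸ x.2)

/-- the elements whose coordinates are the columns -/
noncomputable def uu (D : Sys n L) (j : ℤ) (ν : W n) : L :=
  ∑ i, star (D.b.p j (D.x i)) * D.w ν * D.x i

/-- the degrees of the generators -/
noncomputable def JJ (D : Sys n L) : Finset ℤ :=
  Finset.univ.biUnion fun i => (D.b.fin (D.x i)).toFinset

omit [StarModule ℂ L] [Nontrivial L] in
lemma JJ_spec (D : Sys n L) (j : ℤ) (h : j ∉ JJ D) (i : Fin n) : D.b.p j (D.x i) = 0 := by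
  by_contra h1
  apply h
  unfold JJ
  rw [Finset.mem_biUnion]
  exact ⟨i, Finset.mem_univ i, by simpa using h1⟩

omit [StarModule ℂ L] [Nontrivial L] in
lemma sum_swap (D : Sys n L) (g : L → LL L) (hg : ∀ y z, g (y + z) = g y + g z) (ν : W n) :
    ∑ i, ∑ᶠ j : ℤ, (T j : AA) • g (star (D.b.p j (D.x i)) * D.w ν * D.x i) =
      ∑ j ∈ JJ D, (T j : AA) • g (uu D j ν) := by
  classical
  let G : L →+ LL L := AddMonoidHom.mk' g hg
  have hG : ∀ y, g y = G y := fun _ => rfl
  have h1 : ∀ i : Fin n, ∑ᶠ j : ℤ, (T j : AA) • g (star (D.b.p j (D.x i)) * D.w ν * D.x i) =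
      ∑ j ∈ JJ D, (T j : AA) • g (star (D.b.p j (D.x i)) * D.w ν * D.x i) := by
    intro i
    apply finsum_eq_sum_of_support_subset
    intro j hj
    by_contra h2
    apply hj
    have h3 := JJ_spec D j (by simpa using h2) i
    show (T j : AA) • g (star (D.b.p j (D.x i)) * D.w ν * D.x i) = 0
    rw [h3, star_zero, zero_mul, zero_mul, hG, map_zero, smul_zero]
  simp only [h1]
  rw [Finset.sum_comm]
  refine Finset.sum_congr rfl fun j _ => ?_
  rw [← Finset.smul_sum]
  congr 1
  unfold uu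
  simp only [hG]
  rw [map_sum]

omit [StarModule ℂ L] [Nontrivial L] in
lemma xS (D : Sys n L) (i : Fin n) : D.x i ∈ D.S := by
  apply Submodule.subset_span
  exact ⟨[i], by simp [Sys.w, wd]⟩

omit [StarModule ℂ L] [Nontrivial L] in
lemma S_of_Sge (D : Sys n L) (k : ℕ) {y : L} (h : y ∈ D.Sge k) : y ∈ D.S := by
  refine Submodule.span_mono ?_ h
  rintro _ ⟨μ, _, rfl⟩
  exact ⟨μ, rfl⟩

omit [StarModule ℂ L] [Nontrivial L] in
lemma w_snoc (D : Sys n L) (ν : W n) (i : Fin n) : D.w ν * D.x i = D.w (ν ++ [i]) := by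
  simp [Sys.w, wd]

lemma fin_short (n r N : ℕ) : {i : Idx n r | ilen i < N}.Finite := by
  have h1 : {ν : W n | ν.length < N}.Finite := List.finite_length_lt (Fin n) N
  refine (((h1.image (fun ν => (Sum.inl (Sum.inl ν) : Idx n r))).union
    (h1.image (fun ν => (Sum.inl (Sum.inr ν) : Idx n r)))).union
    (Set.finite_range (fun a : Fin r => (Sum.inr a : Idx n r)))).subset ?_
  rintro ((ν | ν) | a) hi
  · exact Or.inl (Or.inl ⟨ν, hi, rfl⟩)
  · exact Or.inl (Or.inr ⟨ν, hi, rfl⟩)
  · exact Or.inr ⟨a, rfl⟩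

end

theorem hM10 (h1 : StA3) (h2 : StA4) (h3 : StA5) (h4 : StM0) (h5 : StM7) : StM10 := by
  classical
  intro n L _ _ _ _ _ D X0 M M2 r B Z hyp hZ
  obtain ⟨hX, hX1, hX2, hM1, hMM, hpos, hlev⟩ := hyp
  obtain ⟨-, -, -, -, -, -, -, -, -, -, hPb, hPC⟩ := h5 n L D X0 hX1
  obtain ⟨-, -, hba, hbs, -⟩ := h4 L D.b
  obtain ⟨-, -, hcf, -⟩ := h1 n L D
  obtain ⟨-, hgm, -, -, -, hsup⟩ := h3 n L D
  have hu : ∀ (j : ℤ) (ν : W n), M2 ≤ ν.length → uu D j ν ∈ D.Sge M := by
    intro j ν hν
    exact Submodule.sum_mem _ fun i _ => hgm M _ (hlev ν hν j i) _ (xS D i)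
  have hac : ∀ (j : ℤ) (ν : W n), D.acol j ν = D.cf (uu D j ν) := fun _ _ => rfl
  have hemb : ∀ (j : ℤ) (ν : W n), M2 ≤ ν.length → D.emb (D.acol j ν) = uu D j ν := by
    intro j ν hν
    rw [hac, hcf _ (S_of_Sge D M (hu j ν hν))]
  have hlong : ∀ (j : ℤ) (ν : W n), M2 ≤ ν.length → ∀ μ, D.acol j ν μ ≠ 0 → M ≤ μ.length := by
    intro j ν hν
    exact (hsup _ (S_of_Sge D M (hu j ν hν)) M).mp (hu j ν hν)
  have hzero : ∀ (ν : W n), ∀ j ∉ JJ D, D.acol j ν = 0 := by
    intro ν j hj
    rw [hac]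
    have : uu D j ν = 0 := by
      unfold uu
      refine Finset.sum_eq_zero fun i _ => ?_
      rw [JJ_spec D j hj i, star_zero, zero_mul, zero_mul]
    rw [this, map_zero]
  have main1 : ∀ (j : ℤ) (ν : W n), M2 ≤ ν.length →
      FF B M2 Z j (Sum.inl (Sum.inl ν)) = (D.acol j ν).mapDomain (fun μ => Sum.inl (Sum.inl μ)) := by
    intro k ν hν
    have e1 : (Sum.inl (Sum.inl ν) : Idx n r) =
        emI (Sum.inl (Sum.inl (⟨ν, hMM.trans hν⟩ : {ν : W n // M ≤ ν.length})) : Id' n M r) := rfl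
    rw [e1, F_emI]
    have e2 : D.fam M B.b (Sum.inl (Sum.inl (⟨ν, hMM.trans hν⟩ : {ν : W n // M ≤ ν.length}))) =
        D.b.bt (D.w ν) := rfl
    rw [e2, hPb ν, sum_swap D D.b.bt hba ν]
    have e3 : ∑ j ∈ JJ D, (T j : AA) • D.b.bt (uu D j ν) =
        Finsupp.linearCombination AA (D.fam M B.b) (∑ j ∈ JJ D, QP M r j (D.acol j ν)) := by
      rw [map_sum]
      refine Finset.sum_congr rfl fun j _ => ?_
      rw [lcP D M B.b hba hbs j _ (hlong j ν hν), hemb j ν hν]
    rw [e3, co_lc B k _ (h00 k), mapRange_QP (JJ D) (fun j => D.acol j ν) (hzero ν) k, ← Finsupp.mapDomain_comp]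
    conv_rhs => rw [← of_long M (D.acol k ν) (hlong k ν hν), ← Finsupp.mapDomain_comp]
    rfl
  have main2 : ∀ (j : ℤ) (ν : W n), M2 ≤ ν.length →
      FF B M2 Z j (Sum.inl (Sum.inr ν)) =
        ((D.acol j ν).mapRange star (star_zero ℂ)).mapDomain (fun μ => Sum.inl (Sum.inr μ)) := by
    intro k ν hν
    have e1 : (Sum.inl (Sum.inr ν) : Idx n r) =
        emI (Sum.inl (Sum.inr (⟨ν, hMM.trans hν⟩ : {ν : W n // M ≤ ν.length})) : Id' n M r) := rfl
    rw [e1, F_emI]
    have e2 : D.fam M B.b (Sum.inl (Sum.inr (⟨ν, hMM.trans hν⟩ : {ν : W n // M ≤ ν.length}))) =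
        (C (star (D.w ν)) : LL L) := rfl
    rw [e2, hPC ν, sum_swap D (fun y => (C (star y) : LL L)) (fun y z => by rw [star_add, map_add]) ν]
    have e3 : ∑ j ∈ JJ D, (T j : AA) • (C (star (uu D j ν)) : LL L) =
        Finsupp.linearCombination AA (D.fam M B.b) (∑ j ∈ JJ D, QN M r j (D.acol j ν)) := by
      rw [map_sum]
      refine Finset.sum_congr rfl fun j _ => ?_
      rw [lcN D M B.b j _ (hlong j ν hν), hemb j ν hν]
    have hlong' : ∀ μ, ((D.acol k ν).mapRange star (star_zero ℂ)) μ ≠ 0 → M ≤ μ.length := by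
      intro μ hμ
      apply hlong k ν hν
      intro h6
      apply hμ
      rw [Finsupp.mapRange_apply, h6, star_zero]
    rw [e3, co_lc B k _ (h00 k), mapRange_QN (JJ D) (fun j => D.acol j ν) (hzero ν) k, ← Finsupp.mapDomain_comp]
    conv_rhs => rw [← of_long M _ hlong', ← Finsupp.mapDomain_comp]
    rfl
  refine ⟨fun j ν hν => ⟨main1 j ν hν, main2 j ν hν⟩, ?_, ?_⟩
  · intro j ν hν
    refine ⟨F_no B M2 Z j _ (no1 ν hν), F_no B M2 Z j _ (no2 ν hν), fun i => ?_⟩
    exact ⟨F_no2 B M2 Z j i _ (no1 ν hν), F_no2 B M2 Z j i _ (no2 ν hν)⟩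
  · suffices band : ∃ c : ℕ, ∀ (j : ℤ) (i i' : Idx n r), FF B M2 Z j i i' ≠ 0 →
        ilen i' ≤ ilen i + c ∧ ilen i ≤ ilen i' + c from band
    choose l c hlc using fun (j : ℤ) (i : Fin n) => h2 n L D (star (D.b.p j (D.x i)))
    -- bound for the columns of very long words
    have hcol : ∀ j ∈ Z, ∀ ν : W n,
        (Z.sup fun j => Finset.univ.sup fun i => l j i) ≤ ν.length →
        ∀ μ, D.acol j ν μ ≠ 0 →
          ν.length ≤ μ.length + (Z.sup fun j => Finset.univ.sup fun i => c j i) ∧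
          μ.length ≤ ν.length + 1 + (Z.sup fun j => Finset.univ.sup fun i => c j i) := by
      intro j hj ν hν μ hμ
      rw [hac] at hμ
      unfold uu at hμ
      rw [map_sum, Finsupp.finsetSum_apply] at hμ
      obtain ⟨i, -, hi⟩ := Finset.exists_ne_zero_of_sum_ne_zero hμ
      rw [mul_assoc, w_snoc] at hi
      have hl1 : l j i ≤ Z.sup fun j => Finset.univ.sup fun i => l j i :=
        (Finset.le_sup (f := fun i => l j i) (Finset.mem_univ i)).trans
          (Finset.le_sup (f := fun j => Finset.univ.sup fun i => l j i) hj)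
      have hc1 : c j i ≤ Z.sup fun j => Finset.univ.sup fun i => c j i :=
        (Finset.le_sup (f := fun i => c j i) (Finset.mem_univ i)).trans
          (Finset.le_sup (f := fun j => Finset.univ.sup fun i => c j i) hj)
      have h6 := (hlc j i (ν ++ [i]) (by rw [List.length_append]; omega)).2 μ hi
      rw [List.length_append, List.length_singleton] at h6
      omega
    set lm := Z.sup fun j => Finset.univ.sup fun i => l j i with hlm
    set cm := Z.sup fun j => Finset.univ.sup fun i => c j i with hcm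
    set N := max M2 lm + 1 with hN
    set I0 := (fin_short n r N).toFinset with hI0
    set c2 := Z.sup fun j => I0.sup fun i => (FF B M2 Z j i).support.sup fun i' => ilen i' + ilen i
      with hc2
    refine ⟨cm + 1 + c2, fun j i i' hne' => ?_⟩
    have hjZ : j ∈ Z := by
      by_contra h6
      apply hne'
      have : FF B M2 Z j i = 0 := hZ j h6 i
      rw [this]
      rfl
    by_cases hi : ilen i < N
    · have h7 : ilen i' + ilen i ≤ c2 := by
        have a1 := Finset.le_sup (f := fun i' => ilen i' + ilen i)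
          (Finsupp.mem_support_iff.mpr hne')
        have a2 := Finset.le_sup (f := fun i => (FF B M2 Z j i).support.sup fun i' => ilen i' + ilen i)
          (show i ∈ I0 by rw [hI0, Set.Finite.mem_toFinset]; exact hi)
        have a3 := Finset.le_sup
          (f := fun j => I0.sup fun i => (FF B M2 Z j i).support.sup fun i' => ilen i' + ilen i) hjZ
        exact (a1.trans a2).trans a3
      omega
    · rcases i with (ν | ν) | a
      · have hν : N ≤ ν.length := not_lt.mp hi
        have hν2 : M2 ≤ ν.length := by omega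
        rw [main1 j ν hν2] at hne'
        obtain ⟨μ, -, hμ⟩ := Finset.mem_image.mp
          (Finsupp.mapDomain_support (Finsupp.mem_support_iff.mpr hne'))
        subst hμ
        rw [Finsupp.mapDomain_apply il] at hne'
        have h8 := hcol j hjZ ν (by omega) μ hne'
        constructor
        · show μ.length ≤ ν.length + (cm + 1 + c2)
          omega
        · show ν.length ≤ μ.length + (cm + 1 + c2)
          omega
      · have hν : N ≤ ν.length := not_lt.mp hi
        have hν2 : M2 ≤ ν.length := by omega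
        rw [main2 j ν hν2] at hne'
        obtain ⟨μ, -, hμ⟩ := Finset.mem_image.mp
          (Finsupp.mapDomain_support (Finsupp.mem_support_iff.mpr hne'))
        subst hμ
        rw [Finsupp.mapDomain_apply ir,
          Finsupp.mapRange_apply] at hne'
        have h8 := hcol j hjZ ν (by omega) μ (fun h9 => hne' (by rw [h9, star_zero]))
        constructor
        · show μ.length ≤ ν.length + (cm + 1 + c2)
          omega
        · show ν.length ≤ μ.length + (cm + 1 + c2)
          omega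
      · exfalso
        apply hi
        show 0 < N
        omega

end Pool.Agent.Helper28.SI
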